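import Mathlib

set_option autoImplicit false

namespace Pool.Agent.H.MP_9fba86_co

open Finset

section
variable {Q : Type} [Fintype Q] [DecidableEq Q]

def cnt (A : Q → Fin 3) (i : Fin 3) : ℕ := (univ.filter fun a => A a = i).card

def ins (K : Q → Q → Fin 3) (a : Q) (i : Fin 3) : ℕ :=
  (univ.filter fun b => a ≠ b ∧ K a b = i).card

def nx (A B : Q → Fin 3) (K : Q → Q → Fin 3) (a : Q) (i : Fin 3) : ℕ :=
  (if A a = i then 1 else 0) + (if B a = i then 1 else 0) + ins K a i

omit [DecidableEq Q] in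
lemma cnt_sum (A : Q → Fin 3) : cnt A 0 + cnt A 1 + cnt A 2 = Fintype.card Q := by
  have := Finset.card_eq_sum_card_fiberwise (s := (univ : Finset Q)) (t := univ) (f := A)
    (fun _ _ => by simp)
  rw [Fin.sum_univ_three] at this
  exact this.symm

lemma ins_sum (K : Q → Q → Fin 3) (a : Q) :
    ins K a 0 + ins K a 1 + ins K a 2 + 1 = Fintype.card Q := by
  have := Finset.card_eq_sum_card_fiberwise (s := univ.filter fun b => a ≠ b) (t := univ)
    (f := K a) (fun _ _ => by simp)
  rw [Fin.sum_univ_three] at this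
  simp only [Finset.filter_filter] at this
  unfold ins
  rw [← this, Finset.filter_ne, Finset.card_erase_add_one (Finset.mem_univ a), Finset.card_univ]

lemma ins_even (K : Q → Q → Fin 3) (hK : ∀ a b, K a b = K b a) (i : Fin 3) :
    2 ∣ ∑ a, ins K a i := by
  classical
  let G : SimpleGraph Q :=
    { Adj := fun a b => a ≠ b ∧ K a b = i
      symm := ⟨fun a b h => ⟨h.1.symm, by rw [hK b a]; exact h.2⟩⟩
      loopless := ⟨fun a h => h.1 rfl⟩ }
  have := G.sum_degrees_eq_twice_card_edges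
  refine ⟨_, Eq.trans (Finset.sum_congr rfl fun a _ => ?_) this⟩
  rw [← SimpleGraph.card_neighborFinset_eq_degree]
  unfold ins
  congr 1
  ext b
  simp [G]

lemma clique (hQ : 2 ∣ Fintype.card Q) (A B : Q → Fin 3) (K : Q → Q → Fin 3)
    (hK : ∀ a b, K a b = K b a) (h : ∀ a i, nx A B K a i = 0 ∨ Odd (nx A B K a i))
    (μ : Fin 3) (hμ : cnt A μ = 0) (hB : ∀ i, 2 ∣ cnt B i) : ∀ i, 2 ∣ cnt A i := by
  have miss : ∀ t, ¬ 2 ∣ cnt A t → ∃ x, nx A B K x t = 0 := by
    intro t ht
    by_contra hc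
    push Not at hc
    have h1 : 2 ∣ ∑ x, (nx A B K x t + 1) := Finset.dvd_sum fun x _ => by
      obtain ⟨k, hk⟩ := (h x t).resolve_left (hc x)
      omega
    unfold nx at h1
    simp only [Finset.sum_add_distrib, Finset.sum_boole, Finset.sum_const, Finset.card_univ,
      smul_eq_mul, mul_one, Nat.cast_id] at h1
    have h2 := ins_even K hK t
    have h3 := hB t
    unfold cnt at ht h3
    omega
  have hA : ∀ a, A a ≠ μ := by
    intro a e
    have : a ∈ univ.filter fun a => A a = μ := by simpa using e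
    rw [Finset.card_eq_zero.1 hμ] at this
    simp at this
  intro i
  by_contra hi
  have hiμ : i ≠ μ := by rintro rfl; omega
  obtain ⟨i', h1, h2, h3⟩ := (by decide : ∀ i μ : Fin 3, i ≠ μ →
    ∃ i' : Fin 3, i' ≠ i ∧ i' ≠ μ ∧ ∀ t, t = i ∨ t = i' ∨ t = μ) i μ hiμ
  have hs : ∀ f : Fin 3 → ℕ, f 0 + f 1 + f 2 = f i + f i' + f μ := by
    intro f
    clear hi hA hμ h3
    fin_cases i <;> fin_cases i' <;> fin_cases μ <;> simp_all <;> ring
  have hi' : ¬ 2 ∣ cnt A i' := by
    have := cnt_sum A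
    rw [hs] at this
    omega
  obtain ⟨x, hx⟩ := miss i hi
  obtain ⟨y, hy⟩ := miss i' hi'
  have hAx : A x = i' := by
    rcases h3 (A x) with e | e | e
    · unfold nx at hx; rw [if_pos e] at hx; omega
    · exact e
    · exact absurd e (hA x)
  have hx' : nx A B K x i' ≠ 0 := by unfold nx; rw [if_pos hAx]; omega
  have hsum : nx A B K x 0 + nx A B K x 1 + nx A B K x 2 = Fintype.card Q + 1 := by
    have := ins_sum K x
    unfold nx
    generalize A x = p
    generalize B x = q
    fin_cases p <;> fin_cases q <;> simp <;> omega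
  rw [hs] at hsum
  have hxμ : nx A B K x μ = 0 := by
    obtain ⟨k, hk⟩ := (h x i').resolve_left hx'
    rcases h x μ with e | ⟨l, hl⟩
    · exact e
    · omega
  have hxy : x ≠ y := by rintro rfl; exact hx' hy
  have pos : ∀ a b, a ≠ b → nx A B K a (K a b) ≠ 0 := by
    intro a b hab
    have : 0 < ins K a (K a b) := Finset.card_pos.2 ⟨b, by simpa using hab⟩
    unfold nx; omega
  rcases h3 (K x y) with e | e | e
  · exact pos x y hxy (e ▸ hx)
  · exact pos y x hxy.symm (by rw [hK y x, e]; exact hy)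
  · exact pos x y hxy (e ▸ hxμ)

omit [DecidableEq Q] in
lemma hub (hQ : 2 ∣ Fintype.card Q) (hpos : 0 < Fintype.card Q) (A B : Q → Fin 3)
    (h : ∀ i, cnt A i + cnt B i = 0 ∨ Odd (cnt A i + cnt B i)) :
    (∃ μ, cnt A μ = 0 ∧ cnt B μ = 0) ∧ ((∀ i, 2 ∣ cnt A i) ↔ ¬ ∀ i, 2 ∣ cnt B i) := by
  have a := cnt_sum A
  have b := cnt_sum B
  have h0 := h 0
  have h1 := h 1
  have h2 := h 2
  have f3 : ∀ P : Fin 3 → Prop, (∀ i, P i) ↔ P 0 ∧ P 1 ∧ P 2 := fun P =>
    ⟨fun h => ⟨h 0, h 1, h 2⟩, fun h i => by fin_cases i; exacts [h.1, h.2.1, h.2.2]⟩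
  rw [Nat.odd_iff] at h0 h1 h2
  constructor
  · by_contra hc
    push Not at hc
    have c0 := hc 0
    have c1 := hc 1
    have c2 := hc 2
    omega
  · rw [f3, f3]
    omega

theorem core (hQ : 2 ∣ Fintype.card Q) (hpos : 0 < Fintype.card Q) (A B : Fin 3 → Q → Fin 3)
    (K : Fin 3 → Q → Q → Fin 3) (hK : ∀ j a b, K j a b = K j b a)
    (h : ∀ j a i, nx (A j) (B j) (K j) a i = 0 ∨ Odd (nx (A j) (B j) (K j) a i))
    (hh : ∀ j i, cnt (A (j + 1)) i + cnt (B j) i = 0 ∨ Odd (cnt (A (j + 1)) i + cnt (B j) i)) :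
    False := by
  have e : ∀ j, (∀ i, 2 ∣ cnt (A j) i) ↔ ∀ i, 2 ∣ cnt (B j) i := by
    intro j
    obtain ⟨μ, hμ, _⟩ := (hub hQ hpos _ _ (hh (j - 1))).1
    obtain ⟨ν, _, hν⟩ := (hub hQ hpos _ _ (hh j)).1
    rw [sub_add_cancel] at hμ
    refine ⟨clique hQ (B j) (A j) (K j) (hK j) (fun a i => ?_) ν hν,
      clique hQ (A j) (B j) (K j) (hK j) (h j) μ hμ⟩
    have : nx (B j) (A j) (K j) a i = nx (A j) (B j) (K j) a i := by unfold nx; omega
    rw [this]; exact h j a i
  have f0 := (hub hQ hpos _ _ (hh 0)).2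
  have f1 := (hub hQ hpos _ _ (hh 1)).2
  have f2 := (hub hQ hpos _ _ (hh 2)).2
  have e0 := e 0
  have e1 := e 1
  have e2 := e 2
  have r0 : (0 : Fin 3) + 1 = 1 := rfl
  have r1 : (1 : Fin 3) + 1 = 2 := rfl
  have r2 : (2 : Fin 3) + 1 = 0 := rfl
  rw [r0] at f0
  rw [r1] at f1
  rw [r2] at f2
  tauto

def adj : Fin 3 × Option Q → Fin 3 × Option Q → Prop
  | (_, none), (_, none) => False
  | (i, none), (j, some _) => i = j ∨ i = j + 1
  | (j, some _), (i, none) => i = j ∨ i = j + 1
  | (i, some a), (j, some b) => i = j ∧ a ≠ b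

def gr (Q : Type) : SimpleGraph (Fin 3 × Option Q) where
  Adj := adj
  symm := ⟨by
    rintro ⟨i, _ | a⟩ ⟨j, _ | b⟩ h
    · exact h
    · exact h
    · exact h
    · exact ⟨h.1.symm, h.2.symm⟩⟩
  loopless := ⟨by
    rintro ⟨i, _ | a⟩ h
    · exact h
    · exact h.2 rfl⟩

omit [Fintype Q] [DecidableEq Q] in
lemma conn (q0 q1 : Q) (hq : q0 ≠ q1) (S : Set (Fin 3 × Option Q))
    (hS : ∀ v w, v ∉ S → w ∉ S → v = w) : ((gr Q).induce S).Connected := by
  have hr : ∀ j : Fin 3, ∃ a, (j, some a) ∈ S := by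
    intro j
    by_contra hc
    push Not at hc
    have := hS _ _ (hc q0) (hc q1)
    simp [hq] at this
  choose r hr using hr
  have h1 : ∀ v : S, ((gr Q).induce S).Reachable v ⟨(v.1.1, some (r v.1.1)), hr _⟩ := by
    rintro ⟨⟨j, _ | b⟩, hv⟩
    · exact SimpleGraph.Adj.reachable (Or.inl rfl)
    · by_cases e : b = r j
      · subst e; rfl
      · exact SimpleGraph.Adj.reachable ⟨rfl, e⟩
  have h2 : ∀ j : Fin 3, (j + 1, none) ∈ S → ((gr Q).induce S).Reachable ⟨(j, some (r j)), hr _⟩
      ⟨(j + 1, some (r (j + 1))), hr _⟩ := by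
    intro j hj
    refine SimpleGraph.Reachable.trans (v := ⟨(j + 1, none), hj⟩) ?_ ?_
    · exact SimpleGraph.Adj.reachable (Or.inr rfl)
    · exact SimpleGraph.Adj.reachable (Or.inl rfl)
  have h3 : ∀ j : Fin 3, ((gr Q).induce S).Reachable ⟨(j, some (r j)), hr _⟩
      ⟨(j + 1, some (r (j + 1))), hr _⟩ := by
    intro j
    by_cases hj : (j + 1, none) ∈ S
    · exact h2 j hj
    · have a1 : (j + 1 + 1, none) ∈ S := by
        by_contra hc
        have := congrArg Prod.fst (hS _ _ hj hc)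
        revert this; simp only; clear hj hc; revert j; decide
      have a2 : (j + 1 + 1 + 1, none) ∈ S := by
        by_contra hc
        have := congrArg Prod.fst (hS _ _ hj hc)
        revert this; simp only; clear hj hc a1; revert j; decide
      have := ((h2 _ a1).trans (h2 _ a2)).symm
      have e : j + 1 + 1 + 1 = j := by clear hj a1 a2 this; revert j; decide
      simpa only [e] using this
  have h4 : ∀ j : Fin 3, ((gr Q).induce S).Reachable ⟨(0, some (r 0)), hr _⟩
      ⟨(j, some (r j)), hr _⟩ := by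
    intro j
    fin_cases j
    · rfl
    · exact h3 0
    · exact (h3 0).trans (h3 1)
  have : Nonempty S := ⟨⟨_, hr 0⟩⟩
  exact ⟨fun u v => (h1 u).trans ((h4 _).symm.trans ((h4 _).trans (h1 v).symm))⟩

lemma mindeg (v : Fin 3 × Option Q) : Fintype.card Q ≤ ((gr Q).neighborSet v).ncard + 1 := by
  obtain ⟨j, o⟩ := v
  have h1 : ((univ.filter fun b : Q => o ≠ some b).image fun b => (j, some b)).card ≤
      ((gr Q).neighborSet (j, o)).ncard := by
    rw [← Set.ncard_coe_finset]
    apply Set.ncard_le_ncard _ (Set.toFinite _)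
    intro w hw
    simp only [Finset.coe_image, Finset.coe_filter, Finset.mem_univ, true_and, Set.mem_image,
      Set.mem_ofPred_eq] at hw
    obtain ⟨b, hb, rfl⟩ := hw
    rcases o with _ | a
    · exact Or.inl rfl
    · exact ⟨rfl, fun e => hb (by rw [e])⟩
  rw [Finset.card_image_of_injective _ (fun a b e => by simpa using e)] at h1
  rcases o with _ | a
  · simp at h1; omega
  · have : (univ.filter fun b : Q => some a ≠ some b) = univ.erase a := by ext b; simp [eq_comm]
    rw [this] at h1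
    have := Finset.card_erase_add_one (Finset.mem_univ a)
    rw [Finset.card_univ] at this
    omega

theorem bad (hQ : 2 ∣ Fintype.card Q) (hpos : 0 < Fintype.card Q)
    (c : Sym2 (Fin 3 × Option Q) → Fin 3) (h : ∀ (v : Fin 3 × Option Q) (i : Fin 3),
      {w | (gr Q).Adj v w ∧ c s(v, w) = i}.ncard = 0 ∨
        Odd {w | (gr Q).Adj v w ∧ c s(v, w) = i}.ncard) : False := by
  classical
  have key : ∀ v i, {w | (gr Q).Adj v w ∧ c s(v, w) = i}.ncard =
      ∑ j : Fin 3, ((if adj v (j, none) ∧ c s(v, (j, none)) = i then 1 else 0) +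
        ∑ b : Q, if adj v (j, some b) ∧ c s(v, (j, some b)) = i then 1 else 0) := by
    intro v i
    rw [Set.ncard_eq_toFinset_card', Set.toFinset_ofPred, Finset.card_filter, Fintype.sum_prod_type]
    simp only [Fintype.sum_option]
    rfl
  apply core hQ hpos (fun j a => c s((j, some a), (j, none)))
    (fun j a => c s((j, some a), (j + 1, none))) (fun j a b => c s((j, some a), (j, some b)))
  · intro j a b; rw [Sym2.eq_swap]
  · intro j a i
    have := h (j, some a) i
    rw [key] at this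
    convert this using 2 <;>
    · unfold nx ins
      rw [Fin.sum_univ_three, Finset.card_filter]
      fin_cases j <;> simp [adj] <;> ring
  · intro j i
    have := h (j + 1, none) i
    rw [key] at this
    convert this using 2 <;>
    · unfold cnt
      rw [Fin.sum_univ_three, Finset.card_filter, Finset.card_filter]
      fin_cases j <;> simp [adj, Sym2.eq_swap] <;> ring

end

end Pool.Agent.H.MP_9fba86_co
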